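import Mathlib

/-!
# Set Cover Conjecture for monotone circuits: module P
-/

set_option autoImplicit false

open Finset

namespace SetCoverMono

namespace ModP

theorem fact_le (n h : ℕ) (h1 : n ≤ 2 * h) (h2 : 2 * h ≤ n + 1) : ∀ (c a b : ℕ), a + b + c = n →
    a ≤ h → b ≤ h → c ≤ a → c ≤ b →
    a.factorial * b.factorial * c.factorial ≤ h.factorial * (n - h).factorial := by
  intro c
  induction c with
  | zero =>
    intro a b hn ha hb _ _
    rw [Nat.factorial_zero, mul_one]
    by_cases hah : a = h
    · subst hah
      have : b = n - a := by omega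
      rw [this]
    · have hbh : b = h := by omega
      subst hbh
      have : a = n - b := by omega
      rw [this, mul_comm]
  | succ c ih =>
    intro a b hn ha hb hca hcb
    by_cases hah : a < h
    · have h3 := ih (a + 1) b (by omega) hah hb (by omega) (by omega)
      refine le_trans ?_ h3
      rw [Nat.factorial_succ, Nat.factorial_succ]
      have e1 : a.factorial * b.factorial * ((c + 1) * c.factorial) =
          (c + 1) * (a.factorial * b.factorial * c.factorial) := by ring
      have e2 : (a + 1) * a.factorial * b.factorial * c.factorial =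
          (a + 1) * (a.factorial * b.factorial * c.factorial) := by ring
      rw [e1, e2]
      exact Nat.mul_le_mul_right _ (by omega)
    · have h3 := ih a (b + 1) (by omega) ha (by omega) (by omega) (by omega)
      refine le_trans ?_ h3
      rw [Nat.factorial_succ, Nat.factorial_succ]
      have e1 : a.factorial * b.factorial * ((c + 1) * c.factorial) =
          (c + 1) * (a.factorial * b.factorial * c.factorial) := by ring
      have e2 : a.factorial * ((b + 1) * b.factorial) * c.factorial =
          (b + 1) * (a.factorial * b.factorial * c.factorial) := by ring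
      rw [e1, e2]
      exact Nat.mul_le_mul_right _ (by omega)

theorem two_pow_le (n : ℕ) : 2 ^ n ≤ (n + 1) * n.choose (n / 2) := by
  rw [← Nat.sum_range_choose]
  calc ∑ m ∈ range (n + 1), n.choose m ≤ ∑ _m ∈ range (n + 1), n.choose (n / 2) :=
        sum_le_sum fun m _ => Nat.choose_le_middle m n
    _ = (n + 1) * n.choose (n / 2) := by simp

theorem fact_mul_le {n a b c : ℕ} (hn : a + b + c = n) (ha : 2 * a ≤ n) (hb : 2 * b ≤ n)
    (hc : 2 * c ≤ n) :
    a.factorial * b.factorial * c.factorial * 2 ^ n ≤ (n + 1) * n.factorial := by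
  have h1 : a.factorial * b.factorial * c.factorial ≤
      (n - n / 2).factorial * (n - (n - n / 2)).factorial := by
    have key := fact_le n (n - n / 2) (by omega) (by omega)
    rcases le_total a b with hab | hab
    · rcases le_total a c with hac | hac
      · have := key a b c (by omega) (by omega) (by omega) hab hac
        rwa [show a.factorial * b.factorial * c.factorial =
          b.factorial * c.factorial * a.factorial by ring]
      · exact key c a b hn (by omega) (by omega) hac (hac.trans hab)
    · rcases le_total b c with hbc | hbc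
      · have := key b a c (by omega) (by omega) (by omega) hab hbc
        rwa [show a.factorial * b.factorial * c.factorial =
          a.factorial * c.factorial * b.factorial by ring]
      · exact key c a b hn (by omega) (by omega) (hbc.trans hab) hbc
  have h2 : n - (n - n / 2) = n / 2 := by omega
  rw [h2] at h1
  have h3 := Nat.choose_mul_factorial_mul_factorial (Nat.div_le_self n 2)
  calc _ ≤ (n - n / 2).factorial * (n / 2).factorial * ((n + 1) * n.choose (n / 2)) :=
        Nat.mul_le_mul h1 (two_pow_le n)
    _ = (n + 1) * (n.choose (n / 2) * (n / 2).factorial * (n - n / 2).factorial) := by ring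
    _ = (n + 1) * n.factorial := by rw [h3]

/-- The permutations which carry one function to another one. -/
theorem card_carry {α β : Type*} [Fintype α] [DecidableEq α] [Fintype β] [DecidableEq β]
    (f g : α → β) [DecidablePred fun π : Equiv.Perm α => ∀ u, f u = g (π u)] :
    (univ.filter fun π : Equiv.Perm α => ∀ u, f u = g (π u)).card ≤
      ∏ i, (Fintype.card {a // f a = i}).factorial := by
  classical
  rw [← DomMulAct.stabilizer_card f]
  by_cases hne : ∃ π₀ : Equiv.Perm α, ∀ u, f u = g (π₀ u)
  · obtain ⟨π₀, h0⟩ := hne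
    rw [Fintype.card_subtype]
    refine card_le_card_of_injOn (fun π => π₀⁻¹ * π) ?_ ?_
    · intro π hπ
      simp only [coe_filter, mem_univ, true_and, Set.mem_setOf_eq] at hπ ⊢
      funext u
      rw [Function.comp_apply, hπ u, h0]
      simp
    · intro π _ π' _ h
      exact mul_left_cancel h
  · have : (univ.filter fun π : Equiv.Perm α => ∀ u, f u = g (π u)) = ∅ := by
      rw [filter_eq_empty_iff]
      intro π _ h
      exact hne ⟨π, h⟩
    rw [this, card_empty]
    exact Nat.zero_le _

end ModP

/-- MODULE P. Balanced colourings `y₀ ∘ π` compatible with a partition in three parts, none of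
which has more than half of the points, are rare. -/
theorem perm_count {n k : ℕ} (y₀ : Fin n → Fin k) (S₁ S₂ : Finset (Fin n))
    (hd : Disjoint S₁ S₂) (h1 : 2 * S₁.card ≤ n) (h2 : 2 * S₂.card ≤ n)
    (h3 : n ≤ 2 * (S₁ ∪ S₂).card)
    [DecidablePred fun π : Equiv.Perm (Fin n) =>
      ∀ u v, y₀ (π u) = y₀ (π v) → ((u ∈ S₁ ↔ v ∈ S₁) ∧ (u ∈ S₂ ↔ v ∈ S₂))] :
    (univ.filter fun π : Equiv.Perm (Fin n) =>
      ∀ u v, y₀ (π u) = y₀ (π v) → ((u ∈ S₁ ↔ v ∈ S₁) ∧ (u ∈ S₂ ↔ v ∈ S₂))).card * 2 ^ n ≤
      3 ^ k * (n + 1) * n.factorial := by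
  classical
  let part : Fin n → Fin 3 := fun u => if u ∈ S₁ then 0 else if u ∈ S₂ then 1 else 2
  have hpart : ∀ u v, ((u ∈ S₁ ↔ v ∈ S₁) ∧ (u ∈ S₂ ↔ v ∈ S₂)) → part u = part v := by
    rintro u v ⟨h4, h5⟩
    simp only [part, h4, h5]
  have hsub : (univ.filter fun π : Equiv.Perm (Fin n) =>
      ∀ u v, y₀ (π u) = y₀ (π v) → ((u ∈ S₁ ↔ v ∈ S₁) ∧ (u ∈ S₂ ↔ v ∈ S₂))) ⊆
      (univ : Finset (Fin k → Fin 3)).biUnion fun τ =>
        univ.filter fun π : Equiv.Perm (Fin n) => ∀ u, part u = τ (y₀ (π u)) := by
    intro π hπ
    simp only [mem_filter, mem_univ, true_and] at hπ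
    rw [mem_biUnion]
    refine ⟨fun c => if h : ∃ u, y₀ (π u) = c then part h.choose else 0, mem_univ _, ?_⟩
    rw [mem_filter]
    refine ⟨mem_univ _, fun u => ?_⟩
    have hex : ∃ u', y₀ (π u') = y₀ (π u) := ⟨u, rfl⟩
    change part u = if h : ∃ u', y₀ (π u') = y₀ (π u) then part h.choose else 0
    rw [dif_pos hex]
    exact hpart _ _ (hπ _ _ hex.choose_spec.symm)
  have hS : (S₁ ∪ S₂).card = S₁.card + S₂.card := card_union_of_disjoint hd
  have hSn : S₁.card + S₂.card ≤ n := by
    rw [← hS]
    exact (card_le_univ _).trans (by simp)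
  have hprod : ∏ i, (Fintype.card {a // part a = i}).factorial =
      S₁.card.factorial * S₂.card.factorial * (n - (S₁.card + S₂.card)).factorial := by
    rw [Fin.prod_univ_three]
    have e0 : Fintype.card {a // part a = 0} = S₁.card := by
      rw [Fintype.card_subtype]
      congr 1
      ext u
      simp only [mem_filter, mem_univ, true_and, part]
      by_cases hu : u ∈ S₁
      · simp [hu]
      · by_cases hu' : u ∈ S₂
        · simp [hu, hu']
        · simp [hu, hu']
    have e1 : Fintype.card {a // part a = 1} = S₂.card := by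
      rw [Fintype.card_subtype]
      congr 1
      ext u
      simp only [mem_filter, mem_univ, true_and, part]
      by_cases hu : u ∈ S₁
      · have : u ∉ S₂ := fun h => (disjoint_left.1 hd hu) h
        simp [hu, this]
      · by_cases hu' : u ∈ S₂
        · simp [hu, hu']
        · simp [hu, hu']
    have e2 : Fintype.card {a // part a = 2} = n - (S₁.card + S₂.card) := by
      rw [Fintype.card_subtype, ← hS]
      have e3 : (univ.filter fun a => part a = 2) = (S₁ ∪ S₂)ᶜ := by
        ext u
        simp only [mem_filter, mem_univ, true_and, part, mem_compl, mem_union, not_or]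
        by_cases hu : u ∈ S₁
        · simp [hu]
        · by_cases hu' : u ∈ S₂
          · simp [hu, hu']
          · simp [hu, hu']
      rw [e3, card_compl, Fintype.card_fin]
    rw [e0, e1, e2]
  have hcard : (univ.filter fun π : Equiv.Perm (Fin n) =>
      ∀ u v, y₀ (π u) = y₀ (π v) → ((u ∈ S₁ ↔ v ∈ S₁) ∧ (u ∈ S₂ ↔ v ∈ S₂))).card ≤
      3 ^ k * (S₁.card.factorial * S₂.card.factorial *
        (n - (S₁.card + S₂.card)).factorial) := by
    refine (card_le_card hsub).trans ?_
    refine card_biUnion_le.trans ?_
    calc _ ≤ ∑ _τ : Fin k → Fin 3, (S₁.card.factorial * S₂.card.factorial *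
          (n - (S₁.card + S₂.card)).factorial) := by
          refine sum_le_sum fun τ _ => ?_
          rw [← hprod]
          exact ModP.card_carry part fun w => τ (y₀ w)
      _ = _ := by simp
  have hfin := ModP.fact_mul_le (n := n) (a := S₁.card) (b := S₂.card)
    (c := n - (S₁.card + S₂.card)) (by omega) h1 h2 (by omega)
  calc _ ≤ 3 ^ k * (S₁.card.factorial * S₂.card.factorial *
        (n - (S₁.card + S₂.card)).factorial) * 2 ^ n := Nat.mul_le_mul_right _ hcard
    _ = 3 ^ k * (S₁.card.factorial * S₂.card.factorial *
        (n - (S₁.card + S₂.card)).factorial * 2 ^ n) := by ring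
    _ ≤ 3 ^ k * ((n + 1) * n.factorial) := Nat.mul_le_mul_left _ hfin
    _ = 3 ^ k * (n + 1) * n.factorial := by ring

end SetCoverMono
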